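import Pool.Agent.Helper74.DI.StM
set_option autoImplicit false
namespace Pool.Agent.Helper74.DI

/-- The program. -/
def dctm {n : ℕ} (f : Bool → Fin n → Bool) (q : Fin 5 × Bool) (rd : Fin 3 → Bool × Option (Fin n)) :
    (Fin 5 × Bool) × (Fin 3 → Fin 3) :=
  match q with
  | (0, _) => ((1, true), ![2, 2, 1])
  | (1, b) =>
    match (rd 0).2 with
    | some a => ((1, !b), ![2, 1, if f b a then 2 else 1])
    | none => (if b then (2, true) else (4, true), fun _ => 1)
  | (2, b) =>
    match (rd 1).2 with
    | some a => ((2, !b), ![1, 2, if f b a then 1 else 0])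
    | none => (if (rd 2).1 then (3, true) else (4, true), fun _ => 1)
  | (3, b) => ((3, b), fun _ => 1)
  | (4, b) => ((4, b), fun _ => 1)

variable {n : ℕ} (f : Bool → Fin n → Bool)

theorem cn_le (b : Bool) (w : List (Fin n)) : cn f b w ≤ w.length := by
  induction w generalizing b with
  | nil => simp [cn]
  | cons x w ih =>
    have := ih (!b)
    simp only [cn, List.length_cons]
    split_ifs <;> omega

theorem stay3 (w : List (Fin n)) (c : (Fin 5 × Bool) × (Fin 3 → ℕ)) (h : c.1.1 = 3 ∨ c.1.1 = 4) :
    sth (dctm f) w c = c := by
  obtain ⟨⟨q, b⟩, p⟩ := c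
  simp only at h
  rcases h with rfl | rfl <;> simp [sth, dctm]

theorem ph1 (w : List (Fin n)) : ∀ (z u : List (Fin n)), w = u ++ z → ∀ (b : Bool) (c : ℕ),
    c ≤ u.length →
    Rch (sth (dctm f) w) ((1, b), ![u.length + 1, 1, c])
      ((1, if Even z.length then b else !b), ![w.length + 1, 1, c + cn f b z]) := by
  intro z
  induction z with
  | nil =>
    intro u hw b c hc
    simp only [List.append_nil] at hw
    subst hw
    simp only [List.length_nil, Even.zero, if_true, cn, add_zero]
    exact rch_refl _ _
  | cons x z ih =>
    intro u hw b c hc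
    have hx : w[u.length]? = some x := by rw [hw]; simp
    have hl : u.length < w.length := by rw [hw]; simp
    have h1 : sth (dctm f) w ((1, b), ![u.length + 1, 1, c]) =
        ((1, !b), ![u.length + 2, 1, c + if f b x then 1 else 0]) := by
      refine Prod.ext ?_ ?_
      · simp [sth, dctm, hx]
      · funext i
        fin_cases i
        · simp [sth, dctm, hx]
          omega
        · simp [sth, dctm, hx]
        · by_cases hf : f b x = true
          · simp [sth, dctm, hx, hf]
            omega
          · simp [sth, dctm, hx, hf]
    refine rch_head _ _ _ _ h1 ?_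
    have := ih (u ++ [x]) (by rw [hw]; simp) (!b) (c + if f b x then 1 else 0) (by
      simp only [List.length_append, List.length_cons, List.length_nil]
      split_ifs <;> omega)
    simp only [List.length_append, List.length_cons, List.length_nil, zero_add] at this
    have e1 : (if Even z.length then !b else !!b) = (if Even (x :: z).length then b else !b) := by
      simp only [List.length_cons, Nat.even_add_one]
      by_cases h : Even z.length <;> simp [h]
    have e2 : (c + if f b x then 1 else 0) + cn f (!b) z = c + cn f b (x :: z) := by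
      simp only [cn]
      omega
    rw [e1, e2] at this
    exact this

theorem ph2 (w : List (Fin n)) : ∀ (z u : List (Fin n)), w = u ++ z → ∀ (b : Bool) (c : ℕ),
    Rch (sth (dctm f) w) ((2, b), ![w.length + 1, u.length + 1, c])
      ((2, if Even z.length then b else !b),
        ![w.length + 1, w.length + 1, c - (z.length - cn f b z)]) := by
  intro z
  induction z with
  | nil =>
    intro u hw b c
    simp only [List.append_nil] at hw
    subst hw
    simp only [List.length_nil, Even.zero, if_true, cn, Nat.sub_zero]
    exact rch_refl _ _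
  | cons x z ih =>
    intro u hw b c
    have hx : w[u.length]? = some x := by rw [hw]; simp
    have hl : u.length < w.length := by rw [hw]; simp
    have h1 : sth (dctm f) w ((2, b), ![w.length + 1, u.length + 1, c]) =
        ((2, !b), ![w.length + 1, u.length + 2, if f b x then c else c - 1]) := by
      refine Prod.ext ?_ ?_
      · simp [sth, dctm, hx]
      · funext i
        fin_cases i
        · simp [sth, dctm, hx]
        · simp [sth, dctm, hx]
          omega
        · by_cases hf : f b x = true
          · simp [sth, dctm, hx, hf]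
          · simp [sth, dctm, hx, hf]
    refine rch_head _ _ _ _ h1 ?_
    have := ih (u ++ [x]) (by rw [hw]; simp) (!b) (if f b x then c else c - 1)
    simp only [List.length_append, List.length_cons, List.length_nil, zero_add] at this
    have e1 : (if Even z.length then !b else !!b) = (if Even (x :: z).length then b else !b) := by
      simp only [List.length_cons, Nat.even_add_one]
      by_cases h : Even z.length <;> simp [h]
    have e2 : (if f b x then c else c - 1) - (z.length - cn f (!b) z) =
        c - ((x :: z).length - cn f b (x :: z)) := by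
      have := cn_le f (!b) z
      simp only [cn, List.length_cons]
      split_ifs <;> omega
    rw [e1, e2] at this
    exact this

theorem hCTM : StCTM := by
  intro n f
  refine ⟨Fin 5 × Bool, inferInstance, Fin 3, inferInstance, dctm f, (0, true), {q | q.1 = 3}, ?_⟩
  intro w
  have h0 : Rch (sth (dctm f) w) ((0, true), fun _ => 0) ((1, true), ![1, 1, 0]) := by
    refine rch_step _ _ _ ?_
    refine Prod.ext ?_ ?_
    · simp [sth, dctm]
    · funext i
      fin_cases i <;> simp [sth, dctm]
  have h1 := ph1 f w w [] (by simp) true 0 (by simp)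
  simp only [List.length_nil, zero_add] at h1
  have h2 := ph2 f w w [] (by simp) true (cn f true w)
  simp only [List.length_nil, zero_add] at h2
  have hN : w[w.length]? = none := by simp
  have acc : ∀ c, Rch (sth (dctm f) w) ((0, true), fun _ => 0) c → c.1.1 = 3 →
      ∃ m : ℕ, ((sth (dctm f) w)^[m] ((0, true), fun _ => 0)).1 ∈ {q : Fin 5 × Bool | q.1 = 3} := by
    rintro c ⟨m, rfl⟩ hc
    exact ⟨m, hc⟩
  have rej : ∀ c, Rch (sth (dctm f) w) ((0, true), fun _ => 0) c → c.1.1 = 4 →
      ¬ ∃ m : ℕ, ((sth (dctm f) w)^[m] ((0, true), fun _ => 0)).1 ∈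
        {q : Fin 5 × Bool | q.1 = 3} := by
    rintro c ⟨k, hk⟩ hc ⟨m, hm⟩
    have fix : ∀ (d : (Fin 5 × Bool) × (Fin 3 → ℕ)), d.1.1 = 3 ∨ d.1.1 = 4 → ∀ j,
        (sth (dctm f) w)^[j] d = d := by
      intro d hd j
      induction j with
      | zero => rfl
      | succ j ih => rw [Function.iterate_succ_apply', ih, stay3 f w d hd]
    have hm' : ((sth (dctm f) w)^[m] ((0, true), fun _ => 0)).1.1 = 3 := hm
    rcases le_total k m with h | h
    · obtain ⟨j, rfl⟩ := Nat.exists_eq_add_of_le h
      rw [Nat.add_comm, Function.iterate_add_apply, hk, fix c (Or.inr hc)] at hm'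
      rw [hc] at hm'
      exact absurd hm' (by decide)
    · obtain ⟨j, rfl⟩ := Nat.exists_eq_add_of_le h
      rw [Nat.add_comm, Function.iterate_add_apply, fix _ (Or.inl hm')] at hk
      rw [hk, hc] at hm'
      exact absurd hm' (by decide)
  by_cases hE : Even w.length
  · rw [if_pos hE] at h1
    have h3 : sth (dctm f) w ((1, true), ![w.length + 1, 1, cn f true w]) =
        ((2, true), ![w.length + 1, 1, cn f true w]) := by
      refine Prod.ext ?_ ?_
      · simp [sth, dctm]
      · funext i
        fin_cases i <;> simp [sth, dctm]
    have h4 := rch_trans _ _ _ _ h0 (rch_trans _ _ _ _ h1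
      (rch_head _ _ _ _ h3 h2))
    rw [if_pos hE] at h4
    have hle := cn_le f true w
    by_cases hc : 2 * cn f true w ≤ w.length
    · have h5 : cn f true w - (w.length - cn f true w) = 0 := by omega
      rw [h5] at h4
      refine ⟨fun _ => acc _ (rch_trans _ _ _ _ h4 (rch_step _ _ _ rfl)) ?_, fun _ => ⟨hE, hc⟩⟩
      simp [sth, dctm]
    · have h5 : cn f true w - (w.length - cn f true w) ≠ 0 := by omega
      refine ⟨fun h => absurd h.2 hc, fun h => ?_⟩
      refine absurd h (rej _ (rch_trans _ _ _ _ h4 (rch_step _ _ _ rfl)) ?_)
      simp [sth, dctm, h5]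
  · rw [if_neg hE] at h1
    refine ⟨fun h => absurd h.1 hE, fun h => ?_⟩
    refine absurd h (rej _ (rch_trans _ _ _ _ h0 (rch_trans _ _ _ _ h1 (rch_step _ _ _ rfl))) ?_)
    simp [sth, dctm]

end Pool.Agent.Helper74.DI
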