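import Pool.Agent.Helper74.DI.Fin
import Pool.Agent.Helper74.WB.All
import Pool.Agent.Helper42.DI.M_Q2A
import Pool.Agent.Helper36.DI.M_Q2B
import Pool.Agent.Helper34.DI.M_TRG
import Pool.Agent.Helper58.DI.M_FWD
import Pool.Agent.Helper70.DI.M_HT1
import Pool.Agent.Helper26.DI.M_HT2
import Pool.Agent.Helper27.DI.M_HT3
import Pool.Agent.Helper16.DI.M_CLS
import Pool.Agent.Helper15.DI.M_TPR
import Pool.Agent.Helper32.DI.M_CFR
import Pool.Agent.Helper22.DI.M_PAR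
import Pool.Agent.Helper95.DI.M_NCO
import Pool.Agent.Helper60.DI.M_E1K
import Pool.Agent.Helper2.DI.M_E1L
import Pool.Agent.Helper87.DI.M_E2K
import Pool.Agent.Helper72.DI.M_E2L
import Pool.Agent.Helper38.DI.M_NCI
import Pool.Agent.Helper81.DI.M_ADJ
import Pool.Agent.Helper29.DI.M_MAJ
import Pool.Agent.Helper88.DI.M_E2C
import Pool.Agent.Helper2.DI.M_AVR
import Pool.Agent.Helper99.DI.M_PNG
import Pool.Agent.Helper76.DI.M_PPF
import Pool.Agent.Helper8.DI.M_RNH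
import Pool.Agent.Helper40.DI.M_GRO
import Pool.Agent.Helper97.DI.M_DIV
import Pool.Agent.Helper39.DI.M_NUM
import Pool.Agent.Helper28.DI.M_HED
import Pool.Agent.Helper47.DI.M_INT
import Pool.Agent.Helper53.DI.M_ALP
import Pool.Agent.Helper6.DI.M_FIN
import Pool.Agent.Helper74.DI.M_CTM
import Pool.Agent.Helper21.DI.M_STA
import Pool.Agent.Helper7.DI.M_STN
import Pool.Agent.Helper73.DI.M_STB
import Pool.Agent.Helper54.DI.M_STC
import Pool.Agent.Helper66.DI.M_STD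
import Pool.Agent.Helper30.DI.M_LPA
import Pool.Agent.Helper57.DI.M_LPB
import Pool.Agent.Helper96.DI.M_SCN
import Pool.Agent.Helper9.DI.M_RND
import Pool.Agent.Helper64.DI.M_MCH
import Pool.Agent.Helper91.DI.M_LF1
import Pool.Agent.Helper41.DI.M_LF2

/-!
# Project DI (MP_26f0da_lc): the theorem without hypotheses
-/

set_option autoImplicit false

namespace Pool.Agent.Helper74.DI

open Pool.Agent.Helper74.NM (NC)

theorem hQ2A : StQ2A := Pool.Agent.Helper42.DI.hQ2A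
theorem hQ2B : StQ2B := Pool.Agent.Helper36.DI.hQ2B WB.hREL
theorem hTRG : StTRG := Pool.Agent.Helper34.DI.hTRG
theorem hFWD : StFWD := Pool.Agent.Helper58.DI.hFWD
theorem hHT1 : StHT1 := Pool.Agent.Helper70.DI.hHT1 hTRG hFWD WB.hREL
theorem hHT2 : StHT2 := Pool.Agent.Helper26.DI.hHT2 hTRG hFWD
theorem hHT3 : StHT3 := Pool.Agent.Helper27.DI.hHT3 hTRG hFWD
theorem hCLS : StCLS := Pool.Agent.Helper16.DI.hCLS
theorem hTPR : StTPR := Pool.Agent.Helper15.DI.hTPR hQ2A hQ2B WB.hENC WB.hREL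
theorem hCFR : StCFR := Pool.Agent.Helper32.DI.hCFR DR.hNFM WB.hSIM WB.hCNT
theorem hPAR : StPAR := Pool.Agent.Helper22.DI.hPAR
theorem hNCO : StNCO := Pool.Agent.Helper95.DI.hNCO WB.hGRE
theorem hE1K : StE1K := Pool.Agent.Helper60.DI.hE1K
theorem hE1L : StE1L := Pool.Agent.Helper2.DI.hE1L hE1K hPAR
theorem hE2K : StE2K := Pool.Agent.Helper87.DI.hE2K
theorem hE2L : StE2L := Pool.Agent.Helper72.DI.hE2L hE2K hPAR
theorem hNCI : StNCI := Pool.Agent.Helper38.DI.hNCI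
theorem hADJ : StADJ := Pool.Agent.Helper81.DI.hADJ
theorem hMAJ : StMAJ := Pool.Agent.Helper29.DI.hMAJ hNCI hADJ
theorem hE2C : StE2C := Pool.Agent.Helper88.DI.hE2C hMAJ
theorem hAVR : StAVR := Pool.Agent.Helper2.DI.hAVR
theorem hPNG : StPNG := Pool.Agent.Helper99.DI.hPNG
theorem hPPF : StPPF := Pool.Agent.Helper76.DI.hPPF hPNG
theorem hRNH : StRNH := Pool.Agent.Helper8.DI.hRNH hAVR
theorem hGRO : StGRO := Pool.Agent.Helper40.DI.hGRO
theorem hDIV : StDIV := Pool.Agent.Helper97.DI.hDIV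
theorem hNUM : StNUM := Pool.Agent.Helper39.DI.hNUM hGRO hDIV
theorem hHED : StHED := Pool.Agent.Helper28.DI.hHED
theorem hINT : StINT := Pool.Agent.Helper47.DI.hINT
theorem hALP : StALP := Pool.Agent.Helper53.DI.hALP
theorem hFIN : StFIN := Pool.Agent.Helper6.DI.hFIN hINT hALP

theorem hSTA : StSTA := Pool.Agent.Helper21.DI.hSTA
theorem hSTN : StSTN := Pool.Agent.Helper7.DI.hSTN
theorem hSTB : StSTB := Pool.Agent.Helper73.DI.hSTB
theorem hSTC : StSTC := Pool.Agent.Helper54.DI.hSTC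
theorem hSTD : StSTD := Pool.Agent.Helper66.DI.hSTD
theorem hLPA : StLPA := Pool.Agent.Helper30.DI.hLPA hSTC
theorem hLPB : StLPB := Pool.Agent.Helper57.DI.hLPB hSTD
theorem hSCN : StSCN := Pool.Agent.Helper96.DI.hSCN hSTB hLPA hLPB
theorem hRND : StRND := Pool.Agent.Helper9.DI.hRND hSTA hSCN
theorem hMCH : StMCH := Pool.Agent.Helper64.DI.hMCH hSTN hRND
theorem hLF1 : StLF1 := Pool.Agent.Helper91.DI.hLF1 hMCH hHED hNUM hRNH hPPF hNCO DR.hAUB
theorem hLF2 : StLF2 := Pool.Agent.Helper41.DI.hLF2 hE2C hCTM hFIN hINT hHED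

theorem main_all (n : ℕ) (R : Fin n → Fin n → Prop) (hR : ∀ x y, R x y → R y x) :
    (∃ g : ContextFreeGrammar (Fin n), g.language = {w | NC R w}) ∧
      (Three R ∧ One R →
        (∀ (α : Type) [Fintype α] (g : ContextFreeGrammar α),
          ∃ (u : List (Fin n)) (h : α → List (Fin n)), (∀ a, h a ≠ []) ∧
            ∀ w : List α, w ≠ [] → (w ∈ g.language ↔ NC R (u ++ w.flatMap h))) ∧
        ((∀ (α : Type) [Fintype α] (g : ContextFreeGrammar α), DR.InL {w | w ∈ g.language}) ↔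
          DR.InL {w | NC R w})) ∧
      (¬ (Three R ∧ One R) → DR.InL {w | NC R w}) :=
  main hCLS hHT1 hHT2 hHT3 hTPR hCFR hE1L hE2L hLF1 hLF2 hHED hINT hALP WB.hCFN DR.hAUB DR.hAUE
    n R hR

end Pool.Agent.Helper74.DI
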