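import Pool.Agent.Helper74.NM.Base

/-!
# Noncrossing matchings: the criterion of the dichotomy
-/

set_option autoImplicit false

namespace Pool.Agent.Helper74.DI

/-- The matrix of `R` has a 2x2 minor (rows `x`, `x'`, columns `y`, `y'`) with exactly three ones. -/
def Three {G : Type} (R : G → G → Prop) : Prop :=
  ∃ x x' y y' : G, R x y ∧ R x' y ∧ R x' y' ∧ ¬ R x y'

/-- The matrix of `R` has a 2x2 minor (rows `x`, `x'`, columns `y`, `y'`, all of them not zero) with
exactly one one. -/
def One {G : Type} (R : G → G → Prop) : Prop :=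
  ∃ x x' y y' : G, (∃ z, R x' z) ∧ (∃ u, R u y) ∧ R x y' ∧ ¬ R x y ∧ ¬ R x' y ∧ ¬ R x' y'

end Pool.Agent.Helper74.DI
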