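import Pool.Agent.Helper74.DI.Base
import Pool.Agent.Helper74.WB.Defs

/-!
# Project DI (MP_26f0da_lc): definitions and simple facts

THEOREM (dichotomy).  Let `R` be a symmetric relation on a finite set of letters.  If the matrix of
`R` (without the zero rows and columns) has a 2x2 minor with exactly three ones and a 2x2 minor with
exactly one one, then the words which have a noncrossing perfect matching of related letters form a
hardest context-free language.  Otherwise they form a language in `L`.
-/

set_option autoImplicit false

namespace Pool.Agent.Helper74.DI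

open Pool.Agent.Helper74.NM (NC)
open Pool.Agent.Helper74.WB (OP QW rl enc iv ap rd Red)

/-! ### Noncrossing matchings -/

section

variable {G : Type} {R : G → G → Prop}

theorem nc_append (u v : List G) (hu : NC R u) (hv : NC R v) : NC R (u ++ v) := by
  induction hu with
  | nil => exact hv
  | wrap x y p q hxy hp _ _ ihq =>
    have e : x :: (p ++ y :: q) ++ v = x :: (p ++ y :: (q ++ v)) := by simp
    rw [e]
    exact NC.wrap x y p (q ++ v) hxy hp ihq

theorem nc_pair (x y : G) (h : R x y) : NC R [x, y] := by
  have := NC.wrap x y [] [] h NC.nil NC.nil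
  simpa using this

theorem nc_even (w : List G) (h : NC R w) : Even w.length := by
  induction h with
  | nil => simp
  | wrap x y p q _ _ _ ihp ihq =>
    have e : (x :: (p ++ y :: q)).length = p.length + q.length + 2 := by
      simp only [List.length_cons, List.length_append]
      omega
    rw [e]
    exact (ihp.add ihq).add (by decide)

end

/-! ### The configurations -/

section

variable {G : Type} (R : G → G → Prop)

/-- A path `x1 y1 x2 y2` and a separate pair `c d`. -/
def T1 : Prop := ∃ x1 x2 c y1 y2 d : G, R x1 y1 ∧ R x2 y1 ∧ R x2 y2 ∧ R c d ∧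
  ¬ R x1 y2 ∧ ¬ R x1 d ∧ ¬ R x2 d ∧ ¬ R c y1 ∧ ¬ R c y2

/-- A path `x' z x y' u y` (and perhaps the pair `u z`). -/
def T2 : Prop := ∃ x x' u y y' z : G, R x y' ∧ R x z ∧ R x' z ∧ R u y ∧ R u y' ∧
  ¬ R x y ∧ ¬ R x' y ∧ ¬ R x' y'

/-- A tree with the centre `z` and the legs `x y'`, `u y`, `x'`. -/
def T3 : Prop := ∃ x x' u y y' z : G, R x y' ∧ R x z ∧ R x' z ∧ R u y ∧ R u z ∧
  ¬ R x y ∧ ¬ R x' y ∧ ¬ R x' y' ∧ ¬ R u y'

/-- Words over two labels (optional positive letters, mandatory negative letters) are reduced to
`NC R`. -/
def Red2 : Prop := ∃ k : ((Bool × Bool) × Bool) → List G, (∀ a, k a ≠ []) ∧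
  ∀ w : List ((Bool × Bool) × Bool), QW w → (OP w ↔ NC R (w.flatMap k))

/-- All words with optional letters are reduced to `NC R`. -/
def RedA : Prop := ∀ (Λ : Type) [Countable Λ], ∃ k : ((Λ × Bool) × Bool) → List G,
  (∀ a, k a ≠ []) ∧ ∀ w : List ((Λ × Bool) × Bool), OP w ↔ NC R (w.flatMap k)

end

/-! ### Two labels -/

/-- A supply or demand with the label `i`, coded with two labels: `X^i y x^i`, `X^i Y x^i`, where `X` is
the demand and `x` the supply with the label `true`, `y` the supply and `Y` the demand with the label
`false`. -/
def q2 (a : (ℕ × Bool) × Bool) : List ((Bool × Bool) × Bool) :=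
  List.replicate a.1.1 ((true, false), false) ++
    (((false, a.1.2), a.2) :: List.replicate a.1.1 ((true, true), true))

/-- Reading with heights: the letters with the label `true` change the height. -/
def t2 : ℤ → List ((Bool × Bool) × Bool) → List ((ℤ × Bool) × Bool)
  | _, [] => []
  | η, ((true, s), _) :: w => t2 (if s then η - 1 else η + 1) w
  | η, ((false, s), o) :: w => ((η, s), o) :: t2 η w

/-- The height of a word. -/
def ht2 : List ((Bool × Bool) × Bool) → ℤ
  | [] => 0
  | ((true, s), _) :: w => (if s then -1 else 1) + ht2 w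
  | ((false, _), _) :: w => ht2 w

/-! ### Translators -/

section

variable {G S Λ : Type} (δ : S → G → S) (f : S → G → List ((Λ × Bool) × Bool))
  (al : S → G → Prop)

/-- All letters are allowed. -/
def Al : S → List G → Prop
  | _, [] => True
  | s, x :: w => al s x ∧ Al (δ s x) w

/-- The translation. -/
def out : S → List G → List ((Λ × Bool) × Bool)
  | _, [] => []
  | s, x :: w => f s x ++ out (δ s x) w

theorem al_append (s : S) (u v : List G) :
    Al δ al s (u ++ v) ↔ Al δ al s u ∧ Al δ al (u.foldl δ s) v := by
  induction u generalizing s with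
  | nil => simp [Al]
  | cons x u ih => simp [Al, ih, and_assoc]

theorem out_append (s : S) (u v : List G) :
    out δ f s (u ++ v) = out δ f s u ++ out δ f (u.foldl δ s) v := by
  induction u generalizing s with
  | nil => simp [out]
  | cons x u ih => simp [out, ih]

end

/-! ### Parity -/

section

variable {G H : Type} (φ ψ : G → H)

/-- The letters at the odd positions (`b = true`) are mapped by `φ`, the others by `ψ`. -/
def cl : Bool → List G → List H
  | _, [] => []
  | b, x :: w => (if b then φ x else ψ x) :: cl (!b) w

theorem cl_length (b : Bool) (w : List G) : (cl φ ψ b w).length = w.length := by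
  induction w generalizing b with
  | nil => rfl
  | cons x w ih => simp [cl, ih]

theorem cl_append (b : Bool) (u v : List G) :
    cl φ ψ b (u ++ v) = cl φ ψ b u ++ cl φ ψ (if Even u.length then b else !b) v := by
  induction u generalizing b with
  | nil => simp [cl]
  | cons x u ih =>
    simp only [List.cons_append, cl, ih, List.length_cons, Nat.even_add_one]
    by_cases h : Even u.length <;> simp [h]

end

/-- Signed labels which cancel. -/
def Sc (a b : ℕ × Bool) : Prop := b = iv a

/-- Colours which may be matched: they are different, or both are `none`. -/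
def Dc (a b : Option ℕ) : Prop := a ≠ b ∨ a = none

/-- The number of positions whose letter satisfies `f` (with the parity of the position). -/
def cn {G : Type} (f : Bool → G → Bool) : Bool → List G → ℕ
  | _, [] => 0
  | b, x :: w => (if f b x then 1 else 0) + cn f (!b) w

/-! ### Matrices -/

/-- Elementary operations: `op true s`: `p` becomes `p + q` (`s = true`) or `p - q`; `op false s`: `q` becomes
`q + p` or `q - p`; `nop`: nothing; `tog`: the following operations are switched on or off. -/
inductive Op : Type
  | op (t s : Bool) : Op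
  | nop : Op
  | tog : Op

/-- One operation. -/
def st1 (c : Bool × ℤ × ℤ) : Op → Bool × ℤ × ℤ
  | .op true true => if c.1 then (c.1, c.2.1 + c.2.2, c.2.2) else c
  | .op true false => if c.1 then (c.1, c.2.1 - c.2.2, c.2.2) else c
  | .op false true => if c.1 then (c.1, c.2.1, c.2.2 + c.2.1) else c
  | .op false false => if c.1 then (c.1, c.2.1, c.2.2 - c.2.1) else c
  | .nop => c
  | .tog => (!c.1, c.2)

/-- A word of operations. -/
def run (w : List Op) (c : Bool × ℤ × ℤ) : Bool × ℤ × ℤ := w.foldl st1 c

theorem run_nil (c : Bool × ℤ × ℤ) : run [] c = c := rfl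

theorem run_cons (a : Op) (w : List Op) (c : Bool × ℤ × ℤ) : run (a :: w) c = run w (st1 c a) := rfl

theorem run_append (u v : List Op) (c : Bool × ℤ × ℤ) : run (u ++ v) c = run v (run u c) := by
  simp [run, List.foldl_append]

/-- The number of elementary operations. -/
def no : List Op → ℕ
  | [] => 0
  | .op _ _ :: w => no w + 1
  | .nop :: w => no w
  | .tog :: w => no w

theorem no_append (u v : List Op) : no (u ++ v) = no u + no v := by
  induction u with
  | nil => simp [no]
  | cons a u ih =>
    cases a <;> simp [no, ih] <;> omega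

/-- The words of operations which fix `(1, 0)` modulo all small numbers. -/
def L5 : Set (List Op) := {w | ∀ m : ℕ, 1 ≤ m → m ≤ w.length + 2 →
  (m : ℤ) ∣ (run w (true, 1, 0)).2.1 - 1 ∧ (m : ℤ) ∣ (run w (true, 1, 0)).2.2}

/-- The matrix of a signed label: the label `(g, true)` is
`(p, q) ↦ (p' + g q', q')` with `p' = p - g q`, `q' = q + 5 p'`. -/
def Av (v : ℤ × ℤ) (a : ℕ × Bool) : ℤ × ℤ :=
  ((v.1 - a.1 * v.2) + a.1 * (v.2 + (if a.2 then 5 else -5) * (v.1 - a.1 * v.2)),
    v.2 + (if a.2 then 5 else -5) * (v.1 - a.1 * v.2))

/-- The operations of a signed label. -/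
def ow (a : ℕ × Bool) : List Op :=
  List.replicate a.1 (.op true false) ++ (List.replicate 5 (.op false a.2) ++
    List.replicate a.1 (.op true true))

/-- The vector of a stack. -/
def Vv : List (ℕ × Bool) → ℤ × ℤ
  | [] => (1, 0)
  | a :: σ => Av (Vv σ) a

/-- The cone of a signed label. -/
def Xc (a : ℕ × Bool) (v : ℤ × ℤ) : Prop :=
  2 * |v.1 - a.1 * v.2| < |v.2| ∧ 0 < (if a.2 then 1 else -1) * ((v.1 - a.1 * v.2) * v.2)

/-- The word of operations of a letter: the first part is used at odd positions, the second part at
even positions. -/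
def hw {G : Type} (φ ψ : G → ℕ × Bool) (a : G) : List Op :=
  ow (φ a) ++ (.tog :: (ow (ψ a) ++ List.replicate (no (ow (φ a)) + no (ow (ψ a)) + 1) .nop))

end Pool.Agent.Helper74.DI
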