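import Pool.Agent.Helper74.DI.Defs
import Pool.Agent.Helper74.DR.Base

/-!
# Project DI (MP_26f0da_lc): automata with heads indexed by a type, and the machine for `L5`
-/

set_option autoImplicit false

namespace Pool.Agent.Helper74.DI

/-- One step of an automaton whose heads are indexed by `H`. -/
def sth {α Q H : Type} (δ : Q → (H → Bool × Option α) → Q × (H → Fin 3)) (w : List α)
    (c : Q × (H → ℕ)) : Q × (H → ℕ) :=
  ((δ c.1 (fun j => (decide (c.2 j = 0), w[c.2 j - 1]?))).1,
    fun i =>
      if (δ c.1 (fun j => (decide (c.2 j = 0), w[c.2 j - 1]?))).2 i = 0 then c.2 i - 1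
      else if (δ c.1 (fun j => (decide (c.2 j = 0), w[c.2 j - 1]?))).2 i = 1 then c.2 i
      else min (c.2 i + 1) (w.length + 1))

/-- Acceptance by an automaton whose heads are indexed by a finite type. -/
def InH {α : Type} (K : Set (List α)) : Prop :=
  ∃ (Q : Type) (_ : Finite Q) (H : Type) (_ : Finite H)
    (δ : Q → (H → Bool × Option α) → Q × (H → Fin 3)) (q₀ : Q) (acc : Set Q),
    ∀ w : List α, w ∈ K ↔ ∃ n : ℕ, ((sth δ w)^[n] (q₀, fun _ => 0)).1 ∈ acc

/-- `d` is reached from `c`. -/
def Rch {C : Type} (f : C → C) (c d : C) : Prop := ∃ n : ℕ, f^[n] c = d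

theorem rch_refl {C : Type} (f : C → C) (c : C) : Rch f c c := ⟨0, rfl⟩

theorem rch_step {C : Type} (f : C → C) (c d : C) (h : f c = d) : Rch f c d := ⟨1, h⟩

theorem rch_trans {C : Type} (f : C → C) (c d e : C) (h : Rch f c d) (h' : Rch f d e) :
    Rch f c e := by
  obtain ⟨n, rfl⟩ := h
  obtain ⟨m, rfl⟩ := h'
  exact ⟨m + n, by rw [Function.iterate_add_apply]⟩

theorem rch_head {C : Type} (f : C → C) (c d e : C) (h : f c = d) (h' : Rch f d e) :
    Rch f c e := rch_trans f c d e (rch_step f c d h) h'

/-! ### The machine -/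

/-- The places of the program: `rs` start of a round, `sc` the next letter is read, `l1`, `l2` the two
loops of an operation, `ck`, `ck2` the check, `rw` rewind, `nx` next modulus, `ac` accept, `rj` reject. -/
inductive Lo : Type
  | rs : Lo
  | sc : Lo
  | l1 (t s : Bool) : Lo
  | l2 (t s : Bool) : Lo
  | ck : Lo
  | ck2 : Lo
  | rw : Lo
  | nx : Lo
  | ac : Lo
  | rj : Lo

/-- The heads: `J` reads the word, `R r c` are the two heads of the register `r` (`r = true`: `p`,
`r = false`: `q`), `T c` the two heads of the auxiliary register (`T true`: its value). -/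
inductive Hd : Type
  | J : Hd
  | R (r c : Bool) : Hd
  | T (c : Bool) : Hd

/-- States: place, switch, and for every register the head which holds its value. -/
abbrev Qm : Type := Lo × Bool × (Bool → Bool)

/-- The value head and the other head of the register `r` exchange their roles. -/
def fl (r : Bool) (o : Bool → Bool) : Bool → Bool := fun r' => if r' = r then !(o r) else o r'

/-- The register `r` gets the value `x`. -/
def up (r : Bool) (x : ℕ) (v : Bool → ℕ) : Bool → ℕ := fun r' => if r' = r then x else v r'

/-- Moves: `0` left, `1` stay, `2` right. -/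
def mk (j : Fin 3) (rr : Bool → Bool → Fin 3) (tt : Bool → Fin 3) : Hd → Fin 3
  | .J => j
  | .R r c => rr r c
  | .T c => tt c

/-- The program. -/
def dm (q : Qm) (rd : Hd → Bool × Option Op) : Qm × (Hd → Fin 3) :=
  match q with
  | (.rs, _, o) =>
    if (rd (.R true (!o true))).1 then
      ((.sc, true, fl true o), mk 2 (fun _ _ => 1) (fun _ => 1))
    else ((.sc, true, o),
      mk 2 (fun r c => if r then (if c = o true then 2 else 0) else 1) (fun _ => 1))
  | (.sc, e, o) =>
    match (rd .J).2 with
    | none => ((.ck, e, o), fun _ => 1)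
    | some .nop => ((.sc, e, o), mk 2 (fun _ _ => 1) (fun _ => 1))
    | some .tog => ((.sc, !e, o), mk 2 (fun _ _ => 1) (fun _ => 1))
    | some (.op t s) =>
      if e then ((.l1 t s, e, o), mk 2 (fun _ _ => 1) (fun _ => 1))
      else ((.sc, e, o), mk 2 (fun _ _ => 1) (fun _ => 1))
  | (.l1 t s, e, o) =>
    if (rd (.R (!t) (o (!t)))).1 then ((.l2 t s, e, o), fun _ => 1)
    else if (rd (.R t (if s then !(o t) else o t))).1 then
      ((.l1 t s, e, fl t o), mk 1
        (fun r c => if r = t then 1 else (if c = o (!t) then 0 else 2))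
        (fun c => if c then 2 else 0))
    else ((.l1 t s, e, o), mk 1
      (fun r c => if r = t then (if c = o t then (if s then 2 else 0) else (if s then 0 else 2))
        else (if c = o (!t) then 0 else 2))
      (fun c => if c then 2 else 0))
  | (.l2 t s, e, o) =>
    if (rd (.T true)).1 then ((.sc, e, o), fun _ => 1)
    else ((.l2 t s, e, o), mk 1
      (fun r c => if r = t then 1 else (if c = o (!t) then 2 else 0))
      (fun c => if c then 0 else 2))
  | (.ck, e, o) =>
    if (rd (.R true (o true))).1 then ((.ck2, e, fl true o), fun _ => 1)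
    else ((.ck2, e, o), mk 1
      (fun r c => if r then (if c = o true then 0 else 2) else 1) (fun _ => 1))
  | (.ck2, e, o) =>
    if (rd (.R true (o true))).1 && (rd (.R false (o false))).1 then ((.rw, e, o), fun _ => 1)
    else ((.rj, e, o), fun _ => 1)
  | (.rw, e, o) =>
    if (rd .J).1 then ((.nx, e, o), fun _ => 1)
    else ((.rw, e, o), mk 0 (fun _ _ => 1) (fun _ => 1))
  | (.nx, e, o) =>
    if !(rd (.R true (!o true))).1 && (rd (.R true (!o true))).2.isNone then
      ((.ac, e, o), fun _ => 1)
    else ((.rs, e, o), mk 1 (fun r c => if c = o r then 1 else 2) (fun c => if c then 1 else 2))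
  | (.ac, e, o) => ((.ac, e, o), fun _ => 1)
  | (.rj, e, o) => ((.rj, e, o), fun _ => 1)

/-- The configuration with the values `v` of the registers and `t` of the auxiliary register; the
modulus is `μ + 1`. -/
def cf (lo : Lo) (e : Bool) (o : Bool → Bool) (j : ℕ) (v : Bool → ℕ) (t μ : ℕ) : Qm × (Hd → ℕ) :=
  ((lo, e, o), fun h => match h with
    | .J => j
    | .R r c => if c = o r then v r else μ - v r
    | .T c => if c then t else μ - t)

/-- The register `r` is increased modulo `μ + 1`. -/
def inc (μ : ℕ) (r : Bool) (o : Bool → Bool) (v : Bool → ℕ) : (Bool → Bool) × (Bool → ℕ) :=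
  if v r = μ then (fl r o, up r 0 v) else (o, up r (v r + 1) v)

/-- The register `r` is decreased modulo `μ + 1`. -/
def dec (μ : ℕ) (r : Bool) (o : Bool → Bool) (v : Bool → ℕ) : (Bool → Bool) × (Bool → ℕ) :=
  if v r = 0 then (fl r o, up r μ v) else (o, up r (v r - 1) v)

/-- Increase or decrease. -/
def idc (s : Bool) (μ : ℕ) (r : Bool) (o : Bool → Bool) (v : Bool → ℕ) :
    (Bool → Bool) × (Bool → ℕ) := if s then inc μ r o v else dec μ r o v

end Pool.Agent.Helper74.DI
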