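import Pool.Agent.Helper74.DI.StM
import Pool.Agent.Helper74.NM.St
import Pool.Agent.Helper74.DR.Fin

/-!
# Project DI (MP_26f0da_lc): the final assembly
-/

set_option autoImplicit false

namespace Pool.Agent.Helper74.DI

open Pool.Agent.Helper74.NM (NC)

theorem main (hCLS : StCLS) (hHT1 : StHT1) (hHT2 : StHT2) (hHT3 : StHT3) (hTPR : StTPR)
    (hCFR : StCFR) (hE1L : StE1L) (hE2L : StE2L) (hLF1 : StLF1) (hLF2 : StLF2) (hHED : StHED)
    (hINT : StINT) (hALP : StALP) (hCFN : NM.StCFN) (hAUB : DR.StAUB) (hAUE : DR.StAUE)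
    (n : ℕ) (R : Fin n → Fin n → Prop) (hR : ∀ x y, R x y → R y x) :
    (∃ g : ContextFreeGrammar (Fin n), g.language = {w | NC R w}) ∧
      (Three R ∧ One R →
        (∀ (α : Type) [Fintype α] (g : ContextFreeGrammar α),
          ∃ (u : List (Fin n)) (h : α → List (Fin n)), (∀ a, h a ≠ []) ∧
            ∀ w : List α, w ≠ [] → (w ∈ g.language ↔ NC R (u ++ w.flatMap h))) ∧
        ((∀ (α : Type) [Fintype α] (g : ContextFreeGrammar α), DR.InL {w | w ∈ g.language}) ↔
          DR.InL {w | NC R w})) ∧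
      (¬ (Three R ∧ One R) → DR.InL {w | NC R w}) := by
  obtain ⟨g₁, hg₁⟩ := hCFN n R
  refine ⟨⟨g₁, Set.ext hg₁⟩, ?_, ?_⟩
  · rintro ⟨h3, h1⟩
    have h2 : Red2 R := by
      rcases hCLS (Fin n) R hR h3 h1 with h | h | h
      · exact hHT1 _ R hR h
      · exact hHT2 _ R hR h
      · exact hHT3 _ R hR h
    have red := hCFR (Fin n) R (hTPR _ R h2)
    refine ⟨?_, ?_, ?_⟩
    · intro α _ g
      obtain ⟨u, h, _, hh, hw⟩ := red α g
      exact ⟨u, h, hh, hw⟩
    · intro hQ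
      have := hQ (Fin n) g₁
      have e' : {w | w ∈ g₁.language} = {w | NC R w} := Set.ext hg₁
      rwa [e'] at this
    · intro hL α _ g
      obtain ⟨u, h, hu, hh, hw⟩ := red α g
      have h1 := hAUB α _ {w | NC R w} u [] h hu hh hL
      refine hAUE α _ _ (fun w hne => ?_) h1
      simp only [Set.mem_ofPred_eq, List.append_nil]
      exact (hw w hne).symm
  · intro hn
    have key : ∀ K : Set (List (Fin n)), DR.InL K →
        (∀ w, NC R w ↔ (∀ x ∈ w, ∃ y, R x y) ∧ w ∈ K) → DR.InL {w | NC R w} := by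
      intro K hK hw
      have h1 := hINT _ _ _ (hALP (Fin n) fun x => ∃ y, R x y) ((hHED _ K).2 hK)
      have e : {w | NC R w} = {w : List (Fin n) | ∀ x ∈ w, ∃ y, R x y} ∩ K := Set.ext hw
      rw [e]
      exact (hHED _ _).1 h1
    by_cases h3 : Three R
    · have h1 : ¬ One R := fun h1 => hn ⟨h3, h1⟩
      obtain ⟨φ, ψ, hw⟩ := hE2L n R hR h1
      exact key _ (hLF2 n φ ψ) hw
    · obtain ⟨φ, ψ, hw⟩ := hE1L n R hR h3
      exact key _ (hLF1 n φ ψ) hw

end Pool.Agent.Helper74.DI
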