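import Pool.Agent.Helper74.DI.Defs
import Pool.Agent.Helper74.WB.St

/-!
# Project DI (MP_26f0da_lc): module statements, parts 1 (hardness), 2 (easy relations), 3 (matrices)

THEOREM (dichotomy).  Let `R` be a symmetric relation on a finite set of letters.  If `Three R` and
`One R` then `{w | NC R w}` is a hardest context-free language; otherwise it is in `L`.

The lemmas of `Defs.lean` may be used (`nc_append`, `nc_pair`, `nc_even`, `al_append`, `out_append`,
`cl_length`, `cl_append`, `run_nil`, `run_cons`, `run_append`, `no_append`), and those of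
`Pool/Agent/Helper74/WB/Defs.lean` (`iv_iv`, `iv_ne`, `op_append`, `op_optional`, `gr_*`, `rd_*`,
`red_*`).  For each `StX` the module proves `theorem hX : StX` from the listed statements.  A word of
type `List ((Λ × Bool) × Bool)` with `QW` consists of optional positive letters (supplies)
`((i, true), true)` and mandatory negative letters (demands) `((i, false), false)`.
-/

set_option autoImplicit false

namespace Pool.Agent.Helper74.DI

open Pool.Agent.Helper74.NM (NC)
open Pool.Agent.Helper74.WB (OP QW rl enc iv ap rd Red)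

/-! ## Part 1: hardness -/

/-- Q2A (about 70 lines).  Two labels suffice, first direction.

Proof.  Let `X = ((true, false), false)`, `x = ((true, true), true)`.  Nesting: `OP m` implies
`OP (X^i ++ m ++ x^i)` and `OP (x^i ++ m ++ X^i)` (induction on `i`, `OP.wrap`).  Induction on `OP w` with
`QW w`.  `skip x w`: the letter is `((i, true), true)`; its image is `X^i y x^i` with `y` optional: nesting
with `m = [y]`, `op_append`.  `wrap x o o' u v`: if `x = (i, true)` then `o = true`, `o' = false` and the image is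
`X^i y x^i U X^i Y x^i V`: `x^i U X^i` by nesting, `y .. Y` by `OP.wrap`, `X^i .. x^i` by nesting, `V` by
`op_append`.  If `x = (i, false)`: the same with `y` and `Y` exchanged.  Hypotheses: none. -/
def StQ2A : Prop := ∀ w : List ((ℕ × Bool) × Bool), QW w → OP w → OP (w.flatMap q2)

/-- Q2B (about 110 lines).  Two labels suffice, second direction.

Proof.  (1) `t2 η (u ++ v) = t2 η u ++ t2 (η + ht2 u) v`, `ht2 (u ++ v) = ht2 u + ht2 v`.  (2) Claim: `OP z` and
`QW z` imply `ht2 z ≤ 0` and (`ht2 z = 0` implies `OP (t2 η z)` for all `η`).  Induction on `OP z`.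
`skip x z`: the letter is positive; label `true`: its height is `-1`, so the sum is `< 0`; label `false`: the
translation begins with an optional letter: `OP.skip`.  `wrap x o o' u v`: the two letters have the same
label and heights with the sum `0`; if the sum of all is `0` then `ht2 u = ht2 v = 0`.  Label `true`: they give
no letter, `u` is read from `η ± 1` and `v` from `η`: `op_append`.  Label `false`: `OP.wrap`; both letters and `v`
are read from `η`.  (3) For `QW w`: `QW (w.flatMap q2)`, `ht2 (w.flatMap q2) = 0`,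
`t2 0 (w.flatMap q2) = w.map (rl fun n : ℕ => (n : ℤ))` (induction on `w`; `X^i` goes up to the height `i`).
(4) hREL for the injective map `ℕ → ℤ`.  Hypotheses: `hREL : WB.StREL`. -/
def StQ2B : Prop := ∀ w : List ((ℕ × Bool) × Bool), QW w → OP (w.flatMap q2) → OP w

/-- TRG (about 40 lines).  Translators.

Proof.  Induction on `NC R w` for all `s`.  `wrap x y u v`: `al_append`: `al s x`, `Al (δ s x) u`, after `u` the state
is `δ s x` (induction), `al (δ s x) y`, then the state is `s`, `Al s v`; the translation is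
`f s x ++ (out (δ s x) u ++ f (δ s x) y) ++ out s v` (`out_append`): the hypothesis with `U = out (δ s x) u`,
`op_append`.  Hypotheses: none. -/
def StTRG : Prop := ∀ (G S Λ : Type) (R : G → G → Prop) (δ : S → G → S)
  (f : S → G → List ((Λ × Bool) × Bool)) (al : S → G → Prop),
  (∀ s x y, R x y → al s x → al (δ s x) y →
    δ (δ s x) y = s ∧ ∀ U, OP U → OP (f s x ++ (U ++ f (δ s x) y))) →
  ∀ w, NC R w → ∀ s, Al δ al s w → w.foldl δ s = s ∧ OP (out δ f s w)

/-- FWD (about 50 lines).  The easy direction of the reductions.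

Proof.  Induction on `OP w`.  `skip x w`: `QW` gives `x = (i, true)`: `nc_append`.  `wrap x o o' u v`: `x = (i, true)`,
`o = true`, `o' = false`, or `x = (i, false)`, `o = false`, `o' = true`; `flatMap` of an append, `nc_append`.
Hypotheses: none. -/
def StFWD : Prop := ∀ (G : Type) (R : G → G → Prop) (k : ((Bool × Bool) × Bool) → List G),
  (∀ i, NC R (k ((i, true), true))) →
  (∀ i U, NC R U → NC R (k ((i, true), true) ++ (U ++ k ((i, false), false)))) →
  (∀ i U, NC R U → NC R (k ((i, false), false) ++ (U ++ k ((i, true), true)))) →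
  ∀ w, QW w → OP w → NC R (w.flatMap k)

/-- HT1 (about 150 lines).  First configuration.

Proof.  `k` maps the supply `false` to `x2 y1`, the demand `false` to `x1 y2`, the supply `true` to `c y1 x2 d`,
the demand `true` to `c y2 x1 d` (`k a = match a.1 with ..`).  (→) hFWD (pairs `y1 x1`, `x2 y2`; `y2 x2`, `x1 y1`;
`d c`, `x2 y2`, `y1 x1`, `c d`; ..; `R` is symmetric).  (←) hTRG with `S = Bool × ℤ`, `Λ = ℤ`:
`δ (b, η) x = (!b, if b then (if x = c then η + 1 else η) else (if x = d then η - 1 else η))`,
`f (b, η) x = if b then (if x = x2 then [((η, true), true)] else []) else (if x = y2 then [((η, false), false)]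
else [])`, `al (b, η) x`: `x ∈ {x1, x2, c}` if `b`, otherwise `x ∈ {y1, y2, d}`.  Under these conditions only the pairs
`x1 y1`, `x2 y1`, `x2 y2`, `c d` (in both orders) are related; check the hypothesis for each of them
(`op_append`, `OP.skip`, `OP.wrap`).  `x1`, `x2`, `c` are different and `y1`, `y2`, `d` are different (compare rows
and columns).  For `QW w`: all letters of `w.flatMap k` are allowed from `(true, 0)`, the final state is
`(true, 0)`, the translation is `w.map (rl fun i : Bool => if i then (1 : ℤ) else 0)`; hREL.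
Hypotheses: hTRG hFWD and `hREL : WB.StREL`. -/
def StHT1 : Prop := ∀ (G : Type) (R : G → G → Prop), (∀ x y, R x y → R y x) → T1 R → Red2 R

/-- HT2 (about 130 lines).  Second configuration.

Proof.  `k`: supply `false` to `u y'`, demand `false` to `x y`, supply `true` to `x z`, demand `true` to `x' y'`.
(→) hFWD.  (←) hTRG with `S = Bool`, `Λ = Bool`, `δ b _ = !b`; `al true a`: `a ∈ {x, x', u}`, `al false a`:
`a ∈ {y, y', z}`; `f true a = [((false, true), true)]` if `a = u`, `[((true, false), false)]` if `a = x'`, `[]`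
otherwise; `f false a = [((false, false), false)]` if `a = y`, `[((true, true), true)]` if `a = z`, `[]`
otherwise.  Allowed related pairs (in both orders): `x y'` (nothing), `x z` (a supply is skipped), `x' z`
(demand and supply `true`), `u y` (supply and demand `false`), `u y'` (skipped), `u z` (if related: both
skipped).  The three rows are different and the three columns are different.  For `QW w` the
translation of `w.flatMap k` from `true` is `w`.  Hypotheses: hTRG hFWD. -/
def StHT2 : Prop := ∀ (G : Type) (R : G → G → Prop), (∀ x y, R x y → R y x) → T2 R → Red2 R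

/-- HT3 (about 130 lines).  Third configuration.

Proof.  `k`: supply `false` to `x z`, demand `false` to `x' y'`, supply `true` to `u z`, demand `true` to `x' y`.
(→) hFWD.  (←) as HT2 with `f true a = [((false, true), true)]` if `a = x`, `[((true, true), true)]` if `a = u`,
`[]` otherwise; `f false a = [((false, false), false)]` if `a = y'`, `[((true, false), false)]` if `a = y`, `[]`
otherwise.  Allowed related pairs: `x y'` (supply and demand `false`), `x z` (skipped), `x' z` (nothing),
`u y` (supply and demand `true`), `u z` (skipped).  Hypotheses: hTRG hFWD. -/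
def StHT3 : Prop := ∀ (G : Type) (R : G → G → Prop), (∀ x y, R x y → R y x) → T3 R → Red2 R

/-- CLS (about 110 lines).  The classification.

Proof.  Suppose none of `T1`, `T2`, `T3` holds.  (A) If `R x y'`, `¬R x y`, `¬R x' y`, `¬R x' y'`, `R x' z`, `R u y` then
`¬R x z`, `¬R u y'`, `¬R u z`.  (1) `R x z`, `R u y'`: `T2` (with the same names).  (2) `R x z`, `¬R u y'`: if `R u z`:
`T3` (same names); if `¬R u z`: `T1` with `x1 = x'`, `y1 = z`, `x2 = x`, `y2 = y'`, `c = u`, `d = y`.
(3) `¬R x z`, `R u y'`: case (2) for `(x, x', y, y', z, u) := (y', y, x', x, u, z)` by symmetry of `R`.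
(4) `¬R x z`, `¬R u y'`, `R u z`: `T1` with `x1 = x'`, `y1 = z`, `x2 = u`, `y2 = y`, `c = x`, `d = y'`.
(B) Hence: if `R a y'`, `¬R b y'`, `¬R a y`, `¬R b y`, `R u y`, `R b z` then `¬R a z` ((A) with `x = a`, `x' = b`).
(C) Let `R x1 y1`, `R x2 y1`, `R x2 y2`, `¬R x1 y2` (`Three R`).  Every `y` with `R u y` for some `u` satisfies `R x1 y` or
`R x2 y`: otherwise (B) with `a = x2`, `b = x1`, `y' = y2`, `z = y1` gives `¬R x2 y1`.  By symmetry
(`R y2 x2`, `R y1 x2`, `R y1 x1`, `¬R y2 x1`): every such letter `r` satisfies `R r y1` or `R r y2`.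
(D) `One R` gives `x, x', y, y'`, and `z`, `u` with `R x' z`, `R u y`; by (A) also `¬R x z`, `¬R u y'`, `¬R u z`.  By (C)
each of `x`, `x'`, `u` is related to `y1` or `y2`, so two of them are related to the same `yj`.  This
contradicts (B): `(a, b) = (x, x')` with `y'`, `y`; `(a, b) = (x, u)` with `y'` and `y := z`;
`(a, b) = (x', u)` with `y' := z` and `y := y'`.  Hypotheses: none. -/
def StCLS : Prop := ∀ (G : Type) (R : G → G → Prop), (∀ x y, R x y → R y x) →
  Three R → One R → T1 R ∨ T2 R ∨ T3 R

/-- TPR (about 60 lines).  All words with optional letters.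

Proof.  Let `e : Λ × Bool → ℕ` be injective (`exists_injective_nat`), `k₀` from `Red2 R`,
`k a = (((enc a).map (rl e)).flatMap q2).flatMap k₀`.  `OP w ↔ OP (w.flatMap enc)` (hENC)
`↔ OP ((w.flatMap enc).map (rl e))` (hREL) `↔ OP (.. .flatMap q2)` (hQ2A, hQ2B; `QW` holds because
`enc` gives optional positive and mandatory negative letters) `↔ NC R ..` (`Red2`; `QW` of the image
under `q2`).  Not empty: `enc a ≠ []`, `q2 b ≠ []`, `k₀ c ≠ []`.  See `Pool/Agent/Helper62/WB/M_TOP.lean`.
Hypotheses: hQ2A hQ2B and `hENC : WB.StENC`, `hREL : WB.StREL`. -/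
def StTPR : Prop := ∀ (G : Type) (R : G → G → Prop), Red2 R → RedA R

/-- CFR (about 50 lines).  Context-free languages.

Proof.  `hNFM : Pool.Agent.Helper74.DR.StNFM`, `hSIM : WB.StSIM`, `hCNT : WB.StCNT` (hypotheses) as in
`Pool/Agent/Helper58/WB/M_CFL.lean`, with `RedA R` for `Λ = WB.Lb W` instead of hTOP.
Hypotheses: hNFM hSIM hCNT. -/
def StCFR : Prop := ∀ (G : Type) (R : G → G → Prop), RedA R →
  ∀ (α : Type) [Finite α] (g : ContextFreeGrammar α),
    ∃ (u : List G) (h : α → List G), u ≠ [] ∧ (∀ a, h a ≠ []) ∧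
      ∀ w : List α, w ≠ [] → (w ∈ g.language ↔ NC R (u ++ w.flatMap h))

/-! ## Part 2: easy relations -/

/-- PAR (about 90 lines).  Translation by the parity of the position.

Proof.  (→) Induction on `NC R w`, for `b = true` and `b = false` (claim: `NC S (cl φ ψ b w)` and all letters
satisfy `P`).  `wrap x y u v`: `u.length` is even (`nc_even`), so (`cl_append`) the letter `y` has the other
parity than `x` and `v` the same: `NC.wrap`.  (←) Induction on `NC S z` for all `b`, `w` with `z = cl φ ψ b w`
and all letters of `w` in `P`: `w = x :: w₁`; `cl φ ψ (!b) w₁ = p ++ c :: q`; split `w₁ = u ++ y :: v` at the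
position `p.length` (`cl_length`, `List.append_inj`); `p.length` is even (`nc_even`), so
`p = cl φ ψ (!b) u`, `c = if b then ψ y else φ y`, `q = cl φ ψ b v`: `R x y`, `NC.wrap`.  Hypotheses: none. -/
def StPAR : Prop := ∀ (G H : Type) (R : G → G → Prop) (S : H → H → Prop) (φ ψ : G → H)
  (P : G → Prop), (∀ x y, R x y → P x ∧ P y) → (∀ x y, P x → P y → (R x y ↔ S (φ x) (ψ y))) →
  (∀ x y, P x → P y → (R x y ↔ S (ψ x) (φ y))) →
  ∀ w, NC R w ↔ (∀ x ∈ w, P x) ∧ NC S (cl φ ψ true w)

/-- NCO (about 50 lines).  Signed labels: matchings and stacks.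

Proof.  `NC Sc z ↔ OP (z.map fun a => (a, false))`: (→) induction on `NC`, `OP.wrap`; (←) induction on `OP`
for all `z` (`List.map_eq_cons_iff`, `List.map_eq_append_iff`; `skip` is impossible because no letter is
optional).  `OP .. ↔ Gr .. [] []` (hGRE) `↔ rd z [] = []` (`gr_mands` with the empty rest).
Hypotheses: `hGRE : WB.StGRE`. -/
def StNCO : Prop := ∀ z : List (ℕ × Bool), NC Sc z ↔ rd z [] = []

/-- E1K (about 60 lines).  Relations without a minor with exactly three ones.

Proof.  `x` is active if `∃ y, R x y`.  `r x` := the least `y : Fin n` with `R x y` (as a natural number; `0` if `x`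
is not active).  For active `y` choose `x₀` with `R x₀ y`, `r' y := r x₀`.  (→) Let `R x y`.  Then `R x z ↔ R x₀ z` for
all `z`: `R x z` and `¬R x₀ z` gives `Three R` with `(x, x', y, y') := (x₀, x, y, z)`; the other direction in the same
way.  So `r x = r x₀`.  (←) Let `r x = r x₀ = y₁` (as an element of `Fin n`), `R x y₁`, `R x₀ y₁`, `R x₀ y`; if `¬R x y` then
`Three R` with `(x, x', y, y') := (x, x₀, y₁, y)`.  Hypotheses: none. -/
def StE1K : Prop := ∀ (n : ℕ) (R : Fin n → Fin n → Prop), ¬ Three R →
  ∃ r r' : Fin n → ℕ, ∀ x y, (∃ z, R x z) → (∃ z, R z y) → (R x y ↔ r x = r' y)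

/-- E1L (about 60 lines).  The language of such a relation.

Proof.  hE1K, hPAR with `S = Sc`, `φ x = (r x, true)`, `ψ x = (r' x, false)`, `P x := ∃ y, R x y` (`R` is
symmetric, so this is also `∃ y, R y x`).  `Sc (φ x) (ψ y) ↔ r x = r' y`; `Sc (ψ x) (φ y) ↔ r' x = r y`, and
`R x y ↔ R y x`.  Hypotheses: hE1K hPAR. -/
def StE1L : Prop := ∀ (n : ℕ) (R : Fin n → Fin n → Prop), (∀ x y, R x y → R y x) → ¬ Three R →
  ∃ φ ψ : Fin n → ℕ × Bool, ∀ w, NC R w ↔ (∀ x ∈ w, ∃ y, R x y) ∧ NC Sc (cl φ ψ true w)

/-- E2K (about 90 lines).  Relations without a minor with exactly one one.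

Proof.  `r x := some` (the least active `y` with `¬R x y`), or `none` if there is none.  `r' y := r x₀` for a chosen
active `x₀` with `¬R x₀ y`, or `none` if there is none.  Claim: `¬R x y ↔ r x = r' y ∧ r x ≠ none` for active
`x`, `y`.  (→) `x₀` exists.  For active `z`: `¬R x z ↔ ¬R x₀ z`: if `¬R x z` and `R x₀ z`: `One R` with
`(x, x', y, y') := (x₀, x, y, z)`; the other direction in the same way.  So `r x = r x₀ = r' y`, not `none`.
(←) `r' y = r x₀` with `¬R x₀ y`; `r x = r x₀ = some y₁`, `¬R x y₁`, `¬R x₀ y₁`, `y₁` active.  If `R x y`: `One R` with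
`(x, x', y, y') := (x, x₀, y₁, y)`.  (`x` active: `∃ z, R x z`; for columns `∃ z, R z y`; `R` is symmetric.)
Hypotheses: none. -/
def StE2K : Prop := ∀ (n : ℕ) (R : Fin n → Fin n → Prop), (∀ x y, R x y → R y x) → ¬ One R →
  ∃ r r' : Fin n → Option ℕ, ∀ x y, (∃ z, R x z) → (∃ z, R z y) → (R x y ↔ Dc (r x) (r' y))

/-- E2L (about 50 lines).  The language of such a relation.

Proof.  hE2K, hPAR with `S = Dc`, `φ = r`, `ψ = r'`; `Dc` is symmetric.  Hypotheses: hE2K hPAR. -/
def StE2L : Prop := ∀ (n : ℕ) (R : Fin n → Fin n → Prop), (∀ x y, R x y → R y x) → ¬ One R →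
  ∃ φ ψ : Fin n → Option ℕ, ∀ w, NC R w ↔ (∀ x ∈ w, ∃ y, R x y) ∧ NC Dc (cl φ ψ true w)

/-- NCI (about 60 lines).  Insertion.

Proof.  Induction on `NC R z` for all `u`, `v` with `z = u ++ v`.  `nil`: `u = v = []`.  `wrap x y p q`: `u = []`:
`nc_append`.  `u = x :: u'`: either `p = u' ++ p'`, `v = p' ++ y :: q`: induction for `p`, `NC.wrap`; or
`u' = p ++ y :: u''`, `q = u'' ++ v`: induction for `q`, `NC.wrap`.  Hypotheses: none. -/
def StNCI : Prop := ∀ (G : Type) (R : G → G → Prop) (u m v : List G), NC R (u ++ v) → NC R m →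
  NC R (u ++ (m ++ v))

/-- ADJ (about 60 lines).  Adjacent letters.

Proof.  Both parts by induction on `v`.  (1) If neighbours always agree in `P` then all letters agree with
the first one.  (2) If no two neighbours are in the relation `Dc` then neighbours are equal and not
`none` (if `v.length ≥ 2`), so `v` is constant.  Hypotheses: none. -/
def StADJ : Prop :=
  (∀ (v : List (Option ℕ)) (P : Option ℕ → Prop), (∃ x ∈ v, P x) → (∃ x ∈ v, ¬ P x) →
    ∃ u x y w, v = u ++ x :: y :: w ∧ ((P x ∧ ¬ P y) ∨ (¬ P x ∧ P y))) ∧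
  (∀ v : List (Option ℕ), 2 ≤ v.length →
    (∃ u x y w, v = u ++ x :: y :: w ∧ Dc x y) ∨ ∃ c : ℕ, ∀ x ∈ v, x = some c)

/-- MAJ (about 120 lines).  Matchings of different colours.

Proof.  (→) Induction on `NC Dc v`: `wrap x y u w`: `x`, `y` are not both `some c`.  (←) Strong induction on the
length `2 k` of `v`.  `k = 0`: `NC.nil`.  `k > 0`: it suffices to find `v = u ++ x :: y :: w` with `Dc x y` such that
`2 * (u ++ w).count (some c) ≤ 2 k - 2` for all `c`: then hNCI with `m = [x, y]`, `nc_pair`.  (a) Some `c` has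
`2 * v.count (some c) = v.length`: hADJ (1) with `P = (· = some c)` gives neighbours `x`, `y`, exactly one of
them `some c`, so `Dc x y`.  The count of `some c` becomes `k - 1`.  For `c' ≠ c`: the count of `some c'` in `v` is at
most `k`; if it is `k` then all letters are `some c` or `some c'`, so one of `x`, `y` is `some c'` and the
count becomes `k - 1`.  (b) Otherwise `2 * v.count (some c) ≤ 2 k - 2` for all `c` (parity); hADJ (2): a pair with
`Dc x y` exists, because `v` constant gives the count `2 k`.  Hypotheses: hNCI hADJ. -/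
def StMAJ : Prop := ∀ v : List (Option ℕ), NC Dc v ↔
  Even v.length ∧ ∀ c : ℕ, 2 * v.count (some c) ≤ v.length

/-- E2C (about 60 lines).  Counting the colours.

Proof.  hMAJ, `cl_length`.  `(cl φ ψ b w).count (some c) = cn (fun b x => decide ((if b then φ x else ψ x) = some c)) b w`
(induction on `w`).  `F` is the finite set of all `c` with `φ x = some c` or `ψ x = some c` for some `x`; for
`c ∉ F` the count is `0`.  Hypotheses: hMAJ. -/
def StE2C : Prop := ∀ (n : ℕ) (φ ψ : Fin n → Option ℕ), ∃ F : Finset ℕ, ∀ w : List (Fin n),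
  NC Dc (cl φ ψ true w) ↔ Even w.length ∧ ∀ c ∈ F,
    2 * cn (fun b x => decide ((if b then φ x else ψ x) = some c)) true w ≤ w.length

/-! ## Part 3: matrices -/

/-- AVR (about 60 lines).  The operations of a signed label.

Proof.  Switch `false`: all `op` leave the configuration unchanged (`List.replicate`, induction).  Switch
`true`: `g` operations `op true false` give `p - g q`; five operations `op false s` give `q ± 5 p'`; `g`
operations `op true true` give `p' + g q'` (induction on the number of operations, `push_cast`, `ring`).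
Hypotheses: none. -/
def StAVR : Prop := ∀ (a : ℕ × Bool) (v : ℤ × ℤ),
  run (ow a) (true, v) = (true, Av v a) ∧ run (ow a) (false, v) = (false, v)

/-- PNG (about 110 lines).  Ping-pong.

Proof.  Write `a = (g, s)`, `ε = 5` if `s`, `-5` otherwise, `p' = p - g q`, `q' = q + ε p'`; the new vector has
`v.1 - g v.2 = p'` and `v.2 = q'`.  (1) `ring` (with `iv a = (g, !s)`).  (2) `p' = 1`, `q' = ε`.
(3) `b = (k, t) ≠ (g, !s)`.  If `k = g` then `t = s`: `2|p'| < |q|` and `q` has the sign of `ε p'`, so
`|q'| = |q| + 5|p'|` and the sign is right.  If `k ≠ g`: `2|p - k q| < |q|`, and `p' = (p - k q) + (k - g) q` with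
`|k - g| ≥ 1`, so `2|p'| > |q|`; `|q'| ≥ 5|p'| - |q| > 3|p'|`, and `±p' q' ≥ 5 p'² - |p'||q| > 0`.  (`abs_lt`,
`abs_cases`, `nlinarith`; it may help to prove `q² < 4 p'²` first.)  (4) `2|p| < 0` is false.
Hypotheses: none. -/
def StPNG : Prop :=
  (∀ (a : ℕ × Bool) (v : ℤ × ℤ), Av (Av v a) (iv a) = v) ∧
  (∀ a : ℕ × Bool, Xc a (Av (1, 0) a)) ∧
  (∀ (a b : ℕ × Bool) (v : ℤ × ℤ), b ≠ iv a → Xc b v → Xc a (Av v a)) ∧
  (∀ a : ℕ × Bool, ¬ Xc a (1, 0))

/-- PPF (about 70 lines).  The free group.

Proof.  (i) If `Red (a :: σ)` then `Xc a (Vv (a :: σ))`: induction on `σ`, hPNG (2), (3).  So `Vv σ = (1, 0)` iff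
`σ = []` for reduced `σ` (hPNG (4)).  (ii) `l.foldl Av (Vv σ) = Vv (rd l σ)`: induction on `l`; `Av (Vv σ) a = Vv (ap a σ)`:
if `σ = iv a :: σ'`: `Av (Av (Vv σ') (iv a)) a = Vv σ'` by hPNG (1) for `iv a` and `iv_iv`; otherwise the
definition.  (iii) With `σ = []` (`Vv [] = (1, 0)`) and `red_rd`.  Hypotheses: hPNG. -/
def StPPF : Prop := ∀ l : List (ℕ × Bool), rd l [] = [] ↔ l.foldl Av (1, 0) = (1, 0)

/-- RNH (about 60 lines).  The word of operations of a word.

Proof.  (1) `run (hw φ ψ a) (b, v) = (!b, Av v (if b then φ a else ψ a))`: `run_append`, hAVR, the letter `tog`,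
`nop` does nothing; induction on `w`.  (2) `no (hw φ ψ a) = no (ow (φ a)) + no (ow (ψ a))`,
`(hw φ ψ a).length ≥ 2 * no (hw φ ψ a) + 2` (`no v ≤ v.length`); sum over `w`.  Hypotheses: hAVR. -/
def StRNH : Prop := ∀ (G : Type) (φ ψ : G → ℕ × Bool) (w : List G),
  (∀ (b : Bool) (v : ℤ × ℤ), (run (w.flatMap (hw φ ψ)) (b, v)).2 = (cl φ ψ b w).foldl Av v) ∧
  2 * no (w.flatMap (hw φ ψ)) ≤ (w.flatMap (hw φ ψ)).length

/-- GRO (about 60 lines).  Growth.

Proof.  Induction on `w`; every `op` at most doubles the bound (`abs_add_le`, `abs_sub`).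
Hypotheses: none. -/
def StGRO : Prop := ∀ (w : List Op) (c : Bool × ℤ × ℤ) (B : ℤ), |c.2.1| ≤ B → |c.2.2| ≤ B →
  |(run w c).2.1| ≤ 2 ^ no w * B ∧ |(run w c).2.2| ≤ 2 ^ no w * B

/-- DIV (about 70 lines).  Numbers with many divisors.

Proof.  Suppose `D ≠ 0`, `d = D.natAbs`.  For every prime `p` the power `p ^ (k.centralBinom.factorization p)` is
at most `2 k` (`Nat.pow_factorization_choose_le`), so it divides `d`; hence `k.centralBinom ∣ d`
(`Nat.factorization_prime_le_iff_dvd` or `Nat.factorization_le_iff_dvd`), so `k.centralBinom ≤ d < 2 ^ k`.  But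
`2 ^ k ≤ k.centralBinom` by induction (`Nat.succ_mul_centralBinom_succ`).  Hypotheses: none. -/
def StDIV : Prop := ∀ (k : ℕ) (D : ℤ), (∀ m : ℕ, 1 ≤ m → m ≤ 2 * k → (m : ℤ) ∣ D) →
  |D| < 2 ^ k → D = 0

/-- NUM (about 50 lines).  Small moduli suffice.

Proof.  (←) trivial.  (→) hGRO with `B = 1`: `|P| ≤ 2 ^ no w`, `|Q| ≤ 2 ^ no w`; `k = no w + 2`:
`|P - 1| ≤ 2 ^ no w + 1 < 2 ^ k`; hDIV for `P - 1` and `Q`; `2 k ≤ w.length + 2`.  Hypotheses: hGRO hDIV. -/
def StNUM : Prop := ∀ w : List Op, 2 * no w + 2 ≤ w.length →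
  (w ∈ L5 ↔ (run w (true, 1, 0)).2 = (1, 0))

end Pool.Agent.Helper74.DI
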