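import Pool.Agent.Helper74.DI.DefsM
import Pool.Agent.Helper74.DI.St
import Pool.Agent.Helper74.DR.St

/-!
# Project DI (MP_26f0da_lc): module statements, part 4 (automata)

Definitions: `Pool/Agent/Helper74/DI/DefsM.lean` (`sth`, `InH`, `Rch`, the machine `dm`, configurations
`cf lo e o j v t μ`: place `lo`, switch `e`, orientation `o`, head `J` at `j`, values `v` of the registers,
value `t` of the auxiliary register, modulus `μ + 1`).  `rch_refl`, `rch_step`, `rch_trans`, `rch_head` may be
used.  For each `StX` the module proves `theorem hX : StX` from the listed statements.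
-/

set_option autoImplicit false

namespace Pool.Agent.Helper74.DI

open Pool.Agent.Helper74.NM (NC)

/-! ## Closure properties -/

/-- HED (about 60 lines).  Heads indexed by a finite type.

Proof.  `DR.inL_iff` (file `Pool/Agent/Helper74/DR/Defs.lean`).  (→) `e : H ≃ Fin k` (`Finite.equivFin`),
`δ' q rd = ((δ q fun h => rd (e h)).1, fun i => (δ q fun h => rd (e h)).2 (e.symm i))`; by induction on the number
of steps the configurations correspond (`c'.2 i = c.2 (e.symm i)`).  (←) `H = Fin k`: `sth δ = DR.stp δ` by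
`rfl`.  Hypotheses: none. -/
def StHED : Prop := ∀ (α : Type) (K : Set (List α)), InH K ↔ DR.InL K

/-- INT (about 130 lines).  Intersection.

Proof.  `Q = Q₁ ⊕ Q₂`, heads `H₁ ⊕ H₂`, start `inl q₁`.  In `inl q` with `q ∈ acc₁`: go to `inr q₂`, all heads
stay.  In `inl q` with `q ∉ acc₁`: the step of the first automaton on the heads `H₁`, the heads `H₂` stay.
In `inr q`: the step of the second automaton on the heads `H₂`, the heads `H₁` stay.  Accepting: `inr q` with
`q ∈ acc₂`.  Invariant after `n` steps: either the state is `inl q`, the first automaton does not accept before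
the step `n`, `q` and the heads `H₁` are its configuration after `n` steps and the heads `H₂` are at `0`; or
there is `m < n` such that the first automaton is in `acc₁` after `m` steps, and `q` and the heads `H₂` are the
configuration of the second automaton after `n - m - 1` steps.  Hypotheses: none. -/
def StINT : Prop := ∀ (α : Type) (K₁ K₂ : Set (List α)), InH K₁ → InH K₂ → InH (K₁ ∩ K₂)

/-- ALP (about 80 lines).  Allowed letters.

Proof.  One head (`H = Unit`), states `Fin 4`.  State `0`: move right, go to `1`.  State `1`: the letter is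
`none`: go to `2`; `some a` with `P a`: move right, stay in `1`; `some a` with `¬ P a`: go to `3`.  States `2` (accepting)
and `3`: stay.  After `i + 1` steps (`i ≤ w.length`): state `1`, head at `i + 1`, if the first `i` letters satisfy
`P`; otherwise state `3`.  Hypotheses: none. -/
def StALP : Prop := ∀ (α : Type) (P : α → Prop), InH {w : List α | ∀ x ∈ w, P x}

/-- FIN (about 30 lines).  Finite intersections.

Proof.  `Finset.induction_on`: hALP with `P = fun _ => True`, hINT.  Hypotheses: hINT hALP. -/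
def StFIN : Prop := ∀ (α ι : Type) (F : Finset ι) (K : ι → Set (List α)), (∀ i ∈ F, InH (K i)) →
  InH {w : List α | ∀ i ∈ F, w ∈ K i}

/-- CTM (about 150 lines).  Counting.

Proof.  Heads `J1`, `J2`, `C` (`Fin 3`), states: phase in `Fin 5` and a parity (`Bool`).  Phase `0`: `J1` and `J2` move
right, go to phase `1`, parity `true`.  Phase `1`, parity `b`, letter under `J1`: `some a`: `J1` right, `C` right if
`f b a`, parity `!b`; `none`: if `b = true` go to phase `2`, parity `true`, otherwise to phase `4`.  Phase `2`, parity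
`b`, letter under `J2`: `some a`: `J2` right, `C` left if `f b a = false` (it stays at `0` if it is there), parity
`!b`; `none`: if `C` is at `0` go to phase `3`, otherwise to phase `4`.  Phases `3` (accepting) and `4`: stay.
In phase `1` after the first `i` letters: `C = cn f true (w.take i)`; in phase `2`:
`C = cn f true w - (number of the first i letters with f = false)` (natural subtraction); at the end
`C = cn f true w - (w.length - cn f true w)`, which is `0` iff `2 * cn f true w ≤ w.length`.  The parity after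
`i` letters is `true` iff `i` is even; `cn` of an append.  Hypotheses: none. -/
def StCTM : Prop := ∀ (n : ℕ) (f : Bool → Fin n → Bool),
  InH {w : List (Fin n) | Even w.length ∧ 2 * cn f true w ≤ w.length}

/-! ## The machine for `L5` -/

/-- STA (about 130 lines).  Steps outside of the loops.

Proof.  `Prod.ext`; the second component: `funext`, cases of the head (`J`, `R r c`, `T c`, all Booleans) and of
`o true`, `o false`; `simp [sth, dm, cf, mk, inc, dec, fl, up]`, `omega`.  (`μ - v r = 0` iff `v r = μ`.)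
Hypotheses: none. -/
def StSTA : Prop := ∀ (w : List Op) (e : Bool) (o : Bool → Bool) (j : ℕ) (v : Bool → ℕ) (t μ : ℕ),
  (∀ r, v r ≤ μ) → t ≤ μ → μ ≤ w.length + 1 →
  sth dm w (cf .rs e o 0 v t μ) = cf .sc true (inc μ true o v).1 1 (inc μ true o v).2 t μ ∧
  sth dm w (cf .ck e o j v t μ) = cf .ck2 e (dec μ true o v).1 j (dec μ true o v).2 t μ ∧
  (v true = 0 → v false = 0 → sth dm w (cf .ck2 e o j v t μ) = cf .rw e o j v t μ) ∧
  (¬ (v true = 0 ∧ v false = 0) → sth dm w (cf .ck2 e o j v t μ) = cf .rj e o j v t μ) ∧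
  sth dm w (cf .rw e o 0 v t μ) = cf .nx e o 0 v t μ ∧
  sth dm w (cf .rw e o (j + 1) v t μ) = cf .rw e o j v t μ

/-- STN (about 80 lines).  The next modulus; accepting and rejecting configurations do not change.

Proof.  As STA.  The other head of the register `true` is at `μ`: if `μ = 0` its Boolean is `true`; if
`1 ≤ μ ≤ w.length` its letter is not `none`; if `μ = w.length + 1` its letter is `none`.
Hypotheses: none. -/
def StSTN : Prop := ∀ (w : List Op) (e : Bool) (o : Bool → Bool) (μ : ℕ),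
  (μ = w.length + 1 → sth dm w (cf .nx e o 0 (fun _ => 0) 0 μ) = cf .ac e o 0 (fun _ => 0) 0 μ) ∧
  (μ < w.length + 1 → sth dm w (cf .nx e o 0 (fun _ => 0) 0 μ) =
    cf .rs e o 0 (fun _ => 0) 0 (μ + 1)) ∧
  (∀ c : Qm × (Hd → ℕ), c.1.1 = .ac ∨ c.1.1 = .rj → sth dm w c = c)

/-- STB (about 60 lines).  Reading a letter.

Proof.  As STA; `w[j + 1 - 1]? = w[j]?`; `j < w.length` if `w[j]? = some a`.  Hypotheses: none. -/
def StSTB : Prop := ∀ (w : List Op) (e : Bool) (o : Bool → Bool) (j : ℕ) (v : Bool → ℕ) (t μ : ℕ),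
  sth dm w (cf .sc e o (w.length + 1) v t μ) = cf .ck e o (w.length + 1) v t μ ∧
  (w[j]? = some .nop → sth dm w (cf .sc e o (j + 1) v t μ) = cf .sc e o (j + 2) v t μ) ∧
  (w[j]? = some .tog → sth dm w (cf .sc e o (j + 1) v t μ) = cf .sc (!e) o (j + 2) v t μ) ∧
  (∀ x s, w[j]? = some (.op x s) → sth dm w (cf .sc false o (j + 1) v t μ) =
    cf .sc false o (j + 2) v t μ) ∧
  (∀ x s, w[j]? = some (.op x s) → sth dm w (cf .sc true o (j + 1) v t μ) =
    cf (.l1 x s) true o (j + 2) v t μ)

/-- STC (about 120 lines).  Steps of the first loop.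

Proof.  As STA; also cases of `x` and `s`.  In the second part `v (!x) ≥ 1`; the value head of the register `!x`
moves left and its other head right, `T true` right, `T false` left (`μ - t ≥ 1`); the register `x` is
increased or decreased (`idc`), or its heads exchange their roles.  Hypotheses: none. -/
def StSTC : Prop := ∀ (w : List Op) (x s e : Bool) (o : Bool → Bool) (j : ℕ) (v : Bool → ℕ)
  (t μ : ℕ), (∀ r, v r ≤ μ) → t ≤ μ → μ ≤ w.length + 1 →
  (v (!x) = 0 → sth dm w (cf (.l1 x s) e o j v t μ) = cf (.l2 x s) e o j v t μ) ∧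
  (v (!x) ≠ 0 → t < μ → sth dm w (cf (.l1 x s) e o j v t μ) =
    cf (.l1 x s) e (idc s μ x o (up (!x) (v (!x) - 1) v)).1 j
      (idc s μ x o (up (!x) (v (!x) - 1) v)).2 (t + 1) μ)

/-- STD (about 80 lines).  Steps of the second loop.

Proof.  As STA; also cases of `x`.  Hypotheses: none. -/
def StSTD : Prop := ∀ (w : List Op) (x s e : Bool) (o : Bool → Bool) (j : ℕ) (v : Bool → ℕ)
  (t μ : ℕ), (∀ r, v r ≤ μ) → t ≤ μ → μ ≤ w.length + 1 →
  (t = 0 → sth dm w (cf (.l2 x s) e o j v t μ) = cf .sc e o j v t μ) ∧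
  (t ≠ 0 → v (!x) < μ → sth dm w (cf (.l2 x s) e o j v t μ) =
    cf (.l2 x s) e o j (up (!x) (v (!x) + 1) v) (t - 1) μ)

/-- LPA (about 80 lines).  The first loop.

Proof.  Induction on `a` for all `o`, `v`, `t`.  `a = 0`: hSTC, first part.  `a + 1`: `t < μ`; hSTC, second part; the
new `v₁ = (idc s μ x o (up (!x) a v)).2` has `v₁ (!x) = a`, `v₁ x ≤ μ` and `v₁ x = v x ± 1` in `ZMod (μ + 1)`
(`μ + 1 = 0` there, so `0 = μ + 1` and `μ = -1`).  Hypotheses: hSTC. -/
def StLPA : Prop := ∀ (w : List Op) (x s e : Bool) (j μ : ℕ), μ ≤ w.length + 1 →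
  ∀ (a : ℕ) (o : Bool → Bool) (v : Bool → ℕ) (t : ℕ), v (!x) = a → (∀ r, v r ≤ μ) → t + a ≤ μ →
  ∃ (o' : Bool → Bool) (v' : Bool → ℕ),
    Rch (sth dm w) (cf (.l1 x s) e o j v t μ) (cf (.l2 x s) e o' j v' (t + a) μ) ∧
    v' (!x) = 0 ∧ v' x ≤ μ ∧
    (v' x : ZMod (μ + 1)) = (v x : ZMod (μ + 1)) + (if s then 1 else -1) * (a : ZMod (μ + 1))

/-- LPB (about 50 lines).  The second loop.

Proof.  Induction on `t` for all `v`: hSTD; `up (!x) (v (!x) + 1 + t)` of `up (!x) (v (!x) + 1) v` is
`up (!x) (v (!x) + (t + 1)) v`.  Hypotheses: hSTD. -/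
def StLPB : Prop := ∀ (w : List Op) (x s e : Bool) (o : Bool → Bool) (j μ : ℕ),
  μ ≤ w.length + 1 → ∀ (t : ℕ) (v : Bool → ℕ), v x ≤ μ → v (!x) + t ≤ μ →
  Rch (sth dm w) (cf (.l2 x s) e o j v t μ) (cf .sc e o j (up (!x) (v (!x) + t) v) 0 μ)

/-- SCN (about 120 lines).  The whole word is read.

Proof.  Induction on `z` for all `u`, `e`, `o`, `v`, `c`.  `z = []`: hSTB, first part (`u.length = w.length`).
`z = a :: z'`: `w[u.length]? = some a`; the next initial part is `u ++ [a]`.  `nop`, `tog`, and `op` with `e = false`: hSTB.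
`op x s` with `e = true`: hSTB, hLPA (`t = 0`, `a = v (!x)`), hLPB (`t = v (!x)`, `v' (!x) = 0`): the register `!x` has
its old value, the register `x` the value `v x ± v (!x)` in `ZMod (μ + 1)`; compare with `st1` (cases of `x`,
`s`).  Hypotheses: hSTB hLPA hLPB. -/
def StSCN : Prop := ∀ (w : List Op) (μ : ℕ), μ ≤ w.length + 1 → ∀ (z u : List Op), w = u ++ z →
  ∀ (e : Bool) (o : Bool → Bool) (v : Bool → ℕ) (c : ℤ × ℤ), (∀ r, v r ≤ μ) →
  (v true : ZMod (μ + 1)) = (c.1 : ZMod (μ + 1)) → (v false : ZMod (μ + 1)) = (c.2 : ZMod (μ + 1)) →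
  ∃ (e' : Bool) (o' : Bool → Bool) (v' : Bool → ℕ),
    Rch (sth dm w) (cf .sc e o (u.length + 1) v 0 μ) (cf .ck e' o' (w.length + 1) v' 0 μ) ∧
    (∀ r, v' r ≤ μ) ∧
    (v' true : ZMod (μ + 1)) = ((run z (e, c)).2.1 : ZMod (μ + 1)) ∧
    (v' false : ZMod (μ + 1)) = ((run z (e, c)).2.2 : ZMod (μ + 1))

/-- RND (about 110 lines).  One round.

Proof.  hSTA (`rs`): the value of the register `true` becomes `1` modulo `μ + 1`.  hSCN with `u = []`,
`c = (1, 0)`.  hSTA (`ck`): `v true` becomes `P - 1` modulo `μ + 1` (still `≤ μ`), where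
`P = (run w (true, 1, 0)).2.1`.  `v true = 0 ∧ v false = 0` iff `μ + 1` divides `P - 1` and
`(run w (true, 1, 0)).2.2` (`ZMod.intCast_zmod_eq_zero_iff_dvd`, `ZMod.natCast_eq_zero_iff`, `v r ≤ μ`).  If
so: hSTA (`ck2`), and `rw` moves `J` back to `0` (induction), then `nx`; all values are `0`
(`v = fun _ => 0`, `funext`).  Otherwise `rj`.  Hypotheses: hSTA hSCN. -/
def StRND : Prop := ∀ (w : List Op) (μ : ℕ), μ ≤ w.length + 1 → ∀ (e : Bool) (o : Bool → Bool),
  ((((μ + 1 : ℕ) : ℤ) ∣ (run w (true, 1, 0)).2.1 - 1 ∧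
      ((μ + 1 : ℕ) : ℤ) ∣ (run w (true, 1, 0)).2.2) →
    ∃ (e' : Bool) (o' : Bool → Bool),
      Rch (sth dm w) (cf .rs e o 0 (fun _ => 0) 0 μ) (cf .nx e' o' 0 (fun _ => 0) 0 μ)) ∧
  (¬ (((μ + 1 : ℕ) : ℤ) ∣ (run w (true, 1, 0)).2.1 - 1 ∧
      ((μ + 1 : ℕ) : ℤ) ∣ (run w (true, 1, 0)).2.2) →
    ∃ d : Qm × (Hd → ℕ), Rch (sth dm w) (cf .rs e o 0 (fun _ => 0) 0 μ) d ∧ d.1.1 = .rj)

/-- MCH (about 120 lines).  The machine.

Proof.  States `Qm` and heads `Hd` are finite types (injections into products of `Fin` and `Bool`), start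
`(.rs, false, fun _ => true)`, accepting: the place `ac`.  The start configuration is
`cf .rs false (fun _ => true) 0 (fun _ => 0) 0 0`.  By induction on `μ ≤ w.length + 1`: if all `m` with
`1 ≤ m ≤ μ` satisfy the condition of `L5` then `cf .rs e o 0 (fun _ => 0) 0 μ` is reached for some `e`, `o`
(hRND, hSTN).  If all `m ≤ w.length + 2` satisfy it: hRND for `μ = w.length + 1`, hSTN: `ac`.  Otherwise take
the least bad `m = μ + 1`: `rj` is reached.  Both kinds of configurations do not change (hSTN), so `ac` is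
not reached (compare the numbers of steps).  Hypotheses: hSTN hRND. -/
def StMCH : Prop := InH L5

/-! ## The two kinds of easy languages -/

/-- LF1 (about 60 lines).  Signed labels.

Proof.  `InL L5` by hMCH, hHED.  `hAUB : DR.StAUB` (hypothesis) for `h = hw φ ψ` (`h a ≠ []`: it contains
`tog`), `u = [.nop, .nop]`, `v = []`.  The word `u ++ (w.flatMap h ++ [])` satisfies the condition of hNUM
(hRNH (2)), and its `run` from `(true, 1, 0)` is that of `w.flatMap h`; hRNH (1), hPPF, hNCO.
Hypotheses: hMCH hHED hNUM hRNH hPPF hNCO and `hAUB : DR.StAUB`. -/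
def StLF1 : Prop := ∀ (n : ℕ) (φ ψ : Fin n → ℕ × Bool),
  DR.InL {w : List (Fin n) | NC Sc (cl φ ψ true w)}

/-- LF2 (about 50 lines).  Colours.

Proof.  hE2C, hCTM, hFIN, hINT, hHED; the case `F = ∅` needs `Even w.length`: hCTM with
`f = fun _ _ => false`.  Hypotheses: hE2C hCTM hFIN hINT hHED. -/
def StLF2 : Prop := ∀ (n : ℕ) (φ ψ : Fin n → Option ℕ),
  DR.InL {w : List (Fin n) | NC Dc (cl φ ψ true w)}

end Pool.Agent.Helper74.DI
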